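import Pool.Agent.helper55.NM.Spec

/-!
# Row CNT of project NM (MP_7e34bc_co)
-/

set_option autoImplicit false

namespace Pool.Agent.helper98.NM

open Pool.Agent.NM Finset Nat

open Classical in
theorem CNT_card {p q k : ℕ} (X : Fin p → ℝ) (y : Fin q → ℝ) :
    (ZS X y k).card = ∑ I ∈ univ.filter (fun I : Finset (Fin p) => I.Nonempty),
      ∑ j ∈ range (q + 1), if I.card + j ≤ k then
        (univ.filter (fun J : Finset (Fin q) =>
          J.card = j ∧ ∑ i ∈ J, y i = ∑ i ∈ I, X i)).card else 0 := by
  unfold ZS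
  rw [card_filter, Fintype.sum_prod_type, sum_filter]
  refine sum_congr rfl fun I _ => ?_
  by_cases hI : I.Nonempty
  · rw [if_pos hI]
    have h3 : ∀ j ∈ range (q + 1), (if I.card + j ≤ k then
        (univ.filter (fun J : Finset (Fin q) =>
          J.card = j ∧ ∑ i ∈ J, y i = ∑ i ∈ I, X i)).card else 0) =
        ∑ J : Finset (Fin q),
          if I.card + j ≤ k ∧ J.card = j ∧ ∑ i ∈ J, y i = ∑ i ∈ I, X i then 1 else 0 := by
      intro j _
      by_cases hj : I.card + j ≤ k
      · rw [if_pos hj, card_filter]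
        refine sum_congr rfl fun J _ => ?_
        simp only [hj, true_and]
      · rw [if_neg hj]
        simp only [hj, false_and, if_false, sum_const_zero]
    rw [sum_congr rfl h3, sum_comm]
    refine sum_congr rfl fun J _ => ?_
    rw [sum_eq_single J.card]
    · refine if_congr ?_ rfl rfl
      constructor
      · rintro ⟨_, h1, h2⟩
        exact ⟨h1, rfl, h2.symm⟩
      · rintro ⟨h1, _, h2⟩
        exact ⟨hI, h1, h2.symm⟩
    · intro j _ hj
      rw [if_neg]
      rintro ⟨_, h, _⟩
      exact hj h.symm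
    · intro h
      exfalso
      apply h
      have h4 := card_le_univ J
      rw [Fintype.card_fin] at h4
      exact mem_range.2 (Nat.lt_succ_of_le h4)
  · rw [if_neg hI]
    refine sum_eq_zero fun J _ => ?_
    rw [if_neg]
    exact fun h => hI h.1

theorem CNT (hDCT : DCT_stmt) : CNT_stmt := by
  classical
  intro p q k X y
  have h2 : ∑ τ : Equiv.Perm (Fin q), Wt X y k τ =
      ∑ I ∈ univ.filter (fun I : Finset (Fin p) => I.Nonempty), ∑ j ∈ range (q + 1),
        ∑ τ : Equiv.Perm (Fin q),
          if I.card + j ≤ k ∧ Yp y τ j = ∑ i ∈ I, X i then q.choose j else 0 := by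
    unfold Wt
    rw [sum_comm]
    refine sum_congr rfl fun I _ => ?_
    rw [sum_comm]
  rw [h2, CNT_card, sum_mul]
  refine sum_congr rfl fun I _ => ?_
  rw [sum_mul]
  refine sum_congr rfl fun j hj => ?_
  by_cases hk : I.card + j ≤ k
  · rw [if_pos hk, hDCT q y _ j (by have := mem_range.1 hj; omega)]
    rw [card_filter, mul_sum]
    refine sum_congr rfl fun τ _ => ?_
    by_cases h5 : Yp y τ j = ∑ i ∈ I, X i
    · rw [if_pos h5, if_pos ⟨hk, h5⟩, mul_one]
    · rw [if_neg h5, if_neg (fun h => h5 h.2), mul_zero]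
  · rw [if_neg hk, zero_mul]
    symm
    refine sum_eq_zero fun τ _ => ?_
    rw [if_neg]
    exact fun h => hk h.1

end Pool.Agent.helper98.NM
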