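import Pool.Agent.helper55.NM.Spec3

/-!
# Row G3P of project NM (MP_7e34bc_co)
-/

set_option autoImplicit false

namespace Pool.Agent.helper98.NM

open Pool.Agent.NM Pool.Agent.helper72.UP Finset Nat

/-- the big part of `I` -/
def G3P_big {p : ℕ} (S : Finset (Fin p)) (I : Finset (Fin p)) : Finset {e : Fin p // e ∉ S} :=
  I.subtype (fun e => e ∉ S)

theorem G3P_card {p : ℕ} (S I : Finset (Fin p)) : (G3P_big S I).card = (I \ S).card := by
  unfold G3P_big
  rw [card_subtype]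
  congr 1
  ext e
  simp only [mem_filter, mem_sdiff]

theorem G3P_mem {p : ℕ} (S I : Finset (Fin p)) (e : {e : Fin p // e ∉ S}) :
    e ∈ G3P_big S I ↔ (e : Fin p) ∈ I := by
  unfold G3P_big
  exact mem_subtype

theorem G3P_sub {p : ℕ} (S I J : Finset (Fin p)) (h : I ∩ S = J ∩ S)
    (hb : G3P_big S I ⊆ G3P_big S J) : I ⊆ J := by
  intro e he
  by_cases hS : e ∈ S
  · have h1 : e ∈ I ∩ S := mem_inter.mpr ⟨he, hS⟩
    rw [h] at h1
    exact (mem_inter.mp h1).1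
  · have h1 : (⟨e, hS⟩ : {e : Fin p // e ∉ S}) ∈ G3P_big S I := (G3P_mem S I _).mpr he
    exact (G3P_mem S J _).mp (hb h1)

theorem G3P_fcard {p : ℕ} (S : Finset (Fin p)) :
    Fintype.card {e : Fin p // e ∉ S} = (univ \ S).card := by
  rw [Fintype.card_subtype]
  congr 1
  ext e
  simp only [mem_filter, mem_sdiff, mem_univ, true_and]

/-- the exceptional bound -/
noncomputable def G3P_M (ρ : ℝ) : ℝ :=
  max (2 * ρ * (1 - ρ) ^ 2) (max (ρ * (1 - ρ)) (3 * ρ ^ 2 * (1 - ρ)))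

theorem G3P_Mle (ρ : ℝ) (h1 : 1 / 3 ≤ ρ) (h2 : ρ ≤ 1 / 2) : G3P_M ρ ≤ 3 * ρ * (1 - ρ) ^ 2 := by
  have hρ0 : 0 < ρ := by linarith
  have hρ1 : 0 < 1 - ρ := by linarith
  have hpp : 0 < ρ * (1 - ρ) := mul_pos hρ0 hρ1
  unfold G3P_M
  refine max_le ?_ (max_le ?_ ?_)
  · nlinarith [mul_pos hpp hρ1]
  · nlinarith
  · nlinarith

theorem G3P_real (ε ρ M0 M1 : ℝ) (hε2 : ε ≤ 1 / 12) (hε : 0 < ε) (h1 : 1 / 3 ≤ ρ)
    (h2 : ρ ≤ 1 / 2 - ε) (hM0 : M0 ≤ 3 * ρ * (1 - ρ) ^ 2) (hM1 : M1 ≤ 3 * ρ * (1 - ρ) ^ 2)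
    (hor : M0 ≤ G3P_M ρ ∨ M1 ≤ G3P_M ρ) :
    (1 - ρ) * M0 + ρ * M1 ≤ (1 - ε) * (2 * ρ * (1 - ρ)) := by
  have hρ0 : 0 < ρ := by linarith
  have hρ1 : 0 < 1 - ρ := by linarith
  have hpp : 0 < ρ * (1 - ρ) := mul_pos hρ0 hρ1
  have hM := G3P_Mle ρ h1 (by linarith)
  have hkey : (1 - ρ) * (3 * ρ * (1 - ρ) ^ 2) + ρ * G3P_M ρ ≤ 8 / 9 * (2 * ρ * (1 - ρ)) := by
    have h3 : G3P_M ρ ≤ 16 / 9 * (1 - ρ) - 3 * (1 - ρ) ^ 3 := by
      unfold G3P_M
      refine max_le ?_ (max_le ?_ ?_)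
      · have : 2 * ρ * (1 - ρ) + 3 * (1 - ρ) ^ 2 ≤ 16 / 9 := by nlinarith
        nlinarith [mul_le_mul_of_nonneg_left this hρ1.le]
      · have : ρ + 3 * (1 - ρ) ^ 2 ≤ 16 / 9 := by nlinarith
        nlinarith [mul_le_mul_of_nonneg_left this hρ1.le]
      · have : 3 * ρ ^ 2 + 3 * (1 - ρ) ^ 2 ≤ 16 / 9 := by nlinarith
        nlinarith [mul_le_mul_of_nonneg_left this hρ1.le]
    have h4 := mul_le_mul_of_nonneg_left h3 hρ0.le
    nlinarith
  have hfin : 8 / 9 * (2 * ρ * (1 - ρ)) ≤ (1 - ε) * (2 * ρ * (1 - ρ)) :=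
    mul_le_mul_of_nonneg_right (by linarith) (by nlinarith)
  refine le_trans ?_ (hkey.trans hfin)
  rcases hor with h | h
  · have e1 : (1 - ρ) * M0 ≤ (1 - ρ) * G3P_M ρ := mul_le_mul_of_nonneg_left h hρ1.le
    have e2 : ρ * M1 ≤ ρ * (3 * ρ * (1 - ρ) ^ 2) := mul_le_mul_of_nonneg_left hM1 hρ0.le
    have e3 : 0 ≤ (1 - ρ - ρ) * (3 * ρ * (1 - ρ) ^ 2 - G3P_M ρ) :=
      mul_nonneg (by linarith) (by linarith)
    nlinarith
  · have e1 : (1 - ρ) * M0 ≤ (1 - ρ) * (3 * ρ * (1 - ρ) ^ 2) :=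
      mul_le_mul_of_nonneg_left hM0 hρ1.le
    have e2 : ρ * M1 ≤ ρ * G3P_M ρ := mul_le_mul_of_nonneg_left h hρ0.le
    linarith

theorem G3P_real2 (ε ρ M0 M1 : ℝ) (hε2 : ε ≤ 1 / 12) (hε : 0 < ε) (h1 : 1 / 3 ≤ ρ)
    (h2 : ρ ≤ 1 / 2 - ε) (hM0 : M0 ≤ 3 * ρ * (1 - ρ) ^ 2) (hM1 : M1 ≤ 3 * ρ * (1 - ρ) ^ 2) :
    (1 - ρ) * ((1 - 2 * ε) * M0) + ρ * M1 ≤ (1 - ε) * (2 * ρ * (1 - ρ)) := by
  have hρ0 : 0 < ρ := by linarith
  have hρ1 : 0 < 1 - ρ := by linarith
  have hpp : 0 < ρ * (1 - ρ) := mul_pos hρ0 hρ1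
  have e1 : (1 - ρ) * ((1 - 2 * ε) * M0) ≤ (1 - ρ) * ((1 - 2 * ε) * (3 * ρ * (1 - ρ) ^ 2)) :=
    mul_le_mul_of_nonneg_left (mul_le_mul_of_nonneg_left hM0 (by linarith)) hρ1.le
  have e2 : ρ * M1 ≤ ρ * (3 * ρ * (1 - ρ) ^ 2) := mul_le_mul_of_nonneg_left hM1 hρ0.le
  have e3 : 3 * ρ * (1 - ρ) ^ 2 ≤ 2 * ρ * (1 - ρ) := by nlinarith
  have e4 : (1 - ε) * (3 * ρ * (1 - ρ) ^ 2) ≤ (1 - ε) * (2 * ρ * (1 - ρ)) :=
    mul_le_mul_of_nonneg_left e3 (by linarith)
  have e5 : 0 ≤ (ε * (1 - 2 * ρ)) * (3 * ρ * (1 - ρ) ^ 2) :=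
    mul_nonneg (mul_nonneg hε.le (by linarith)) (by positivity)
  nlinarith

theorem G3P_fib (hAC3 : AC3_stmt) (p : ℕ) (S : Finset (Fin p)) (H : Finset (Finset (Fin p)))
    (d : Finset (Fin p) → ℕ) (ρ : ℝ) (hH : Hyp p S H d) (h1 : 1 / 3 ≤ ρ) (h2 : ρ ≤ 1 / 2)
    (hc : (univ \ S).card = 3) (T : Finset (Fin p)) (hT : T ⊆ S) :
    ∃ M : ℝ, ∑ I ∈ H.filter (fun I => I ∩ S = T), ρ ^ I.card * (1 - ρ) ^ (p - I.card) =
      ρ ^ T.card * (1 - ρ) ^ (S.card - T.card) * M ∧ M ≤ 3 * ρ * (1 - ρ) ^ 2 ∧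
      ((H.filter (fun I => I ∩ S = T)).image (G3P_big S) =
        univ.filter (fun A : Finset {e : Fin p // e ∉ S} => A.card = 1) ∨ M ≤ G3P_M ρ) := by
  obtain ⟨hi, hii, _⟩ := hH
  have hinj : Set.InjOn (G3P_big S) (H.filter (fun I => I ∩ S = T) : Finset (Finset (Fin p))) := by
    intro I hI J hJ hIJ
    rw [mem_coe, mem_filter] at hI hJ
    have e1 : I ∩ S = J ∩ S := by rw [hI.2, hJ.2]
    exact Subset.antisymm (G3P_sub S I J e1 (by rw [hIJ])) (G3P_sub S J I e1.symm (by rw [hIJ]))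
  have hL := hAC3 {e : Fin p // e ∉ S} ((H.filter (fun I => I ∩ S = T)).image (G3P_big S)) ρ
    ?_ ?_ ?_ h1 h2
  · refine ⟨∑ A ∈ (H.filter (fun I => I ∩ S = T)).image (G3P_big S),
      ρ ^ A.card * (1 - ρ) ^ (3 - A.card), ?_, ?_, ?_⟩
    · rw [sum_image hinj, mul_sum]
      have hscard : S.card + (univ \ S).card = p := by
        have h3 := card_sdiff_add_card_eq_card (subset_univ S)
        rw [Finset.card_univ, Fintype.card_fin] at h3
        omega
      apply sum_congr rfl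
      intro I hI
      rw [mem_filter] at hI
      have e1 : (G3P_big S I).card = (I \ S).card := G3P_card S I
      have e2 : I.card = T.card + (I \ S).card := by
        rw [← hI.2]
        have := card_inter_add_card_sdiff I S
        omega
      have e3 : T.card ≤ S.card := card_le_card hT
      have e4 : (I \ S).card ≤ (univ \ S).card :=
        card_le_card (sdiff_subset_sdiff (subset_univ I) (Subset.refl S))
      have e5 : p - I.card = (S.card - T.card) + (3 - (I \ S).card) := by omega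
      rw [e1, e5, e2, pow_add, pow_add]
      ring
    · rcases hL with h | h
      · rw [h]
        have h3 : ∀ A ∈ univ.filter (fun A : Finset {e : Fin p // e ∉ S} => A.card = 1),
            ρ ^ A.card * (1 - ρ) ^ (3 - A.card) = ρ * (1 - ρ) ^ 2 := by
          intro A hA
          rw [(mem_filter.1 hA).2, pow_one]
        rw [sum_congr rfl h3, sum_const, Finset.univ_filter_card_eq, card_powersetCard,
          Finset.card_univ, G3P_fcard, hc, nsmul_eq_mul]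
        apply le_of_eq
        norm_num
        ring
      · exact h.trans (G3P_Mle ρ h1 h2)
    · rcases hL with h | h
      · left; exact h
      · right; exact h
  · intro A hA B hB hAB hsub
    rw [mem_coe, mem_image] at hA hB
    obtain ⟨I, hI, rfl⟩ := hA
    obtain ⟨J, hJ, rfl⟩ := hB
    rw [mem_filter] at hI hJ
    have e1 : I ∩ S = J ∩ S := by rw [hI.2, hJ.2]
    apply hAB
    rw [hii I hI.1 J hJ.1 e1 (G3P_sub S I J e1 hsub)]
  · intro A hA
    rw [mem_image] at hA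
    obtain ⟨I, hI, rfl⟩ := hA
    rw [mem_filter] at hI
    have h3 := hi I hI.1
    rw [not_subset] at h3
    obtain ⟨e, he, heS⟩ := h3
    exact ⟨⟨e, heS⟩, (G3P_mem S I _).mpr he⟩
  · rw [G3P_fcard]
    exact hc

theorem G3P_T (hAC3 : AC3_stmt) (p : ℕ) (S : Finset (Fin p)) (H : Finset (Finset (Fin p)))
    (d : Finset (Fin p) → ℕ) (ε ρ R : ℝ) (hH : Hyp p S H d) (hε : 0 < ε) (hε2 : ε ≤ 1 / 12)
    (h1 : 1 / 3 ≤ ρ) (h2 : ρ ≤ 1 / 2 - ε) (hR0 : 0 ≤ R) (hR : R ≤ 1 - 2 * ε)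
    (hc : (univ \ S).card = 3) (e : Fin p) (he : e ∈ S) (T : Finset (Fin p))
    (hT : T ⊆ S.erase e) :
    ∑ I ∈ H.filter (fun I => I ∩ S = T), ρ ^ I.card * (1 - ρ) ^ (p - I.card) * R ^ d I +
      ∑ I ∈ H.filter (fun I => I ∩ S = insert e T),
        ρ ^ I.card * (1 - ρ) ^ (p - I.card) * R ^ d I ≤
      ρ ^ T.card * (1 - ρ) ^ ((S.erase e).card - T.card) * ((1 - ε) * (2 * ρ * (1 - ρ))) := by
  have hρ0 : 0 < ρ := by linarith
  have hρ1 : 0 < 1 - ρ := by linarith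
  have hR1 : R ≤ 1 := by linarith
  have heT : e ∉ T := fun h => (mem_erase.1 (hT h)).1 rfl
  have hTS : T ⊆ S := fun i hi => mem_of_mem_erase (hT hi)
  have heTS : insert e T ⊆ S := insert_subset he hTS
  obtain ⟨M0, hu0, hM0, hor0⟩ := G3P_fib hAC3 p S H d ρ hH h1 (by linarith) hc T hTS
  obtain ⟨M1, hu1, hM1, hor1⟩ := G3P_fib hAC3 p S H d ρ hH h1 (by linarith) hc (insert e T) heTS
  have hct : T.card ≤ (S.erase e).card := card_le_card hT
  have hcS : (S.erase e).card + 1 = S.card := card_erase_add_one he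
  have x1 : S.card - T.card = ((S.erase e).card - T.card) + 1 := by omega
  have x2 : S.card - (T.card + 1) = (S.erase e).card - T.card := by omega
  rw [x1] at hu0
  rw [card_insert_of_notMem heT, x2] at hu1
  have hμ : 0 ≤ ρ ^ T.card * (1 - ρ) ^ ((S.erase e).card - T.card) := by positivity
  have hw : ∀ F : Finset (Finset (Fin p)),
      ∑ I ∈ F, ρ ^ I.card * (1 - ρ) ^ (p - I.card) * R ^ d I ≤
        ∑ I ∈ F, ρ ^ I.card * (1 - ρ) ^ (p - I.card) := by
    intro F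
    apply sum_le_sum
    intro I _
    have h3 : R ^ d I ≤ 1 := pow_le_one₀ hR0 hR1
    have h4 : 0 ≤ ρ ^ I.card * (1 - ρ) ^ (p - I.card) := by positivity
    nlinarith
  have hsplit : (M0 ≤ G3P_M ρ ∨ M1 ≤ G3P_M ρ) ∨
      ((H.filter (fun I => I ∩ S = T)).image (G3P_big S) =
        (H.filter (fun I => I ∩ S = insert e T)).image (G3P_big S)) := by
    rcases hor0 with h | h
    · rcases hor1 with h' | h'
      · right; rw [h, h']
      · left; right; exact h'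
    · left; left; exact h
  rcases hsplit with hor | heq
  · have key := G3P_real ε ρ M0 M1 hε2 hε h1 h2 hM0 hM1 hor
    have key2 := mul_le_mul_of_nonneg_left key hμ
    refine (add_le_add (hw _) (hw _)).trans ?_
    rw [hu0, hu1]
    refine le_trans (le_of_eq ?_) key2
    ring
  · have key := G3P_real2 ε ρ M0 M1 hε2 hε h1 h2 hM0 hM1
    have key2 := mul_le_mul_of_nonneg_left key hμ
    have hw0 : ∑ I ∈ H.filter (fun I => I ∩ S = T),
        ρ ^ I.card * (1 - ρ) ^ (p - I.card) * R ^ d I ≤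
        (1 - 2 * ε) * ∑ I ∈ H.filter (fun I => I ∩ S = T),
          ρ ^ I.card * (1 - ρ) ^ (p - I.card) := by
      rw [mul_sum]
      apply sum_le_sum
      intro I hI
      have h4 : 0 ≤ ρ ^ I.card * (1 - ρ) ^ (p - I.card) := by positivity
      have h5 : G3P_big S I ∈ (H.filter (fun I => I ∩ S = T)).image (G3P_big S) :=
        mem_image_of_mem _ hI
      rw [heq, mem_image] at h5
      obtain ⟨J, hJ, hJI⟩ := h5
      rw [mem_filter] at hI hJ
      have h6 : (insert e I) ∩ S = J ∩ S := by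
        rw [hJ.2, insert_inter_of_mem he, hI.2]
      have h7 : G3P_big S (insert e I) = G3P_big S J := by
        rw [hJI]
        ext a
        rw [G3P_mem, G3P_mem, mem_insert]
        constructor
        · rintro (h | h)
          · exact absurd (h ▸ he) a.2
          · exact h
        · exact fun h => Or.inr h
      have h8 : insert e I = J :=
        Subset.antisymm (G3P_sub S _ J h6 (by rw [h7])) (G3P_sub S J _ h6.symm (by rw [h7]))
      have heI : e ∉ I := by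
        intro h
        have h9 : e ∈ I ∩ S := mem_inter.2 ⟨h, he⟩
        rw [hI.2] at h9
        exact heT h9
      have h10 : I ⊂ J := by
        rw [← h8]; exact ssubset_insert heI
      have h11 := hH.2.2 I hI.1 J hJ.1 h10
      have h12 : R ^ d I ≤ 1 - 2 * ε := by
        refine le_trans ?_ hR
        calc R ^ d I ≤ R ^ 1 := pow_le_pow_of_le_one hR0 hR1 (by omega)
          _ = R := pow_one R
      calc ρ ^ I.card * (1 - ρ) ^ (p - I.card) * R ^ d I
          ≤ ρ ^ I.card * (1 - ρ) ^ (p - I.card) * (1 - 2 * ε) :=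
            mul_le_mul_of_nonneg_left h12 h4
        _ = _ := by ring
    refine (add_le_add hw0 (hw _)).trans ?_
    rw [hu0, hu1]
    refine le_trans (le_of_eq ?_) key2
    ring

theorem G3P (hAC3 : AC3_stmt) : G3P_stmt := by
  intro p S H d ε ρ R hH hε hε2 h1 h2 hR0 hR hp hc
  have hcS : S.card + (univ \ S).card = p := by
    have h3 := card_sdiff_add_card_eq_card (subset_univ S)
    rw [Finset.card_univ, Fintype.card_fin] at h3
    omega
  have hSne : S.Nonempty := by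
    rw [← Finset.card_pos]; omega
  obtain ⟨e, he⟩ := hSne
  have hfib : ∑ I ∈ H, ρ ^ I.card * (1 - ρ) ^ (p - I.card) * R ^ d I =
      ∑ T ∈ S.powerset, ∑ I ∈ H.filter (fun I => I ∩ S = T),
        ρ ^ I.card * (1 - ρ) ^ (p - I.card) * R ^ d I := by
    symm
    apply sum_fiberwise_of_maps_to
    intro I _
    rw [mem_powerset]
    exact inter_subset_right
  have hins : insert e (S.erase e) = S := insert_erase he
  have hpow : ∀ F : Finset (Fin p) → ℝ, ∑ T ∈ S.powerset, F T =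
      ∑ T ∈ (S.erase e).powerset, (F T + F (insert e T)) := by
    intro F
    have h3 := sum_powerset_insert (notMem_erase e S) F
    rw [hins] at h3
    rw [h3, sum_add_distrib]
  rw [hfib, hpow]
  have hμ : ∑ t ∈ (S.erase e).powerset,
      ρ ^ t.card * (1 - ρ) ^ ((S.erase e).card - t.card) = 1 := by
    rw [sum_pow_mul_eq_add_pow]
    have : ρ + (1 - ρ) = 1 := by ring
    rw [this, one_pow]
  refine (sum_le_sum fun T hT => G3P_T hAC3 p S H d ε ρ R hH hε hε2 h1 h2 hR0 hR hc e he T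
    (mem_powerset.1 hT)).trans ?_
  rw [← sum_mul, hμ, one_mul]

end Pool.Agent.helper98.NM
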